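import Mathlib

/-!
# The modified log-Sobolev constant and the entropy hitting-time parameter

For a finite irreducible reversible chain `(P, π)` run in continuous time (`H_t = exp (-t (I - P))`)
we show that neither `1 / c_MLS ≤ C ρ_ent` nor `1 / c_MLS ≤ C τ_ent` can hold with an absolute
constant `C`: three-state birth and death chains are counterexamples.
-/

set_option autoImplicit false

open scoped ENNReal NNReal BigOperators
open Matrix

namespace Pool.Agent.Results.MP_bada7b_pr.EntropyHittingFails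

section Defs

variable {Ω : Type} [Fintype Ω] [DecidableEq Ω]

/-- `P` is an irreducible transition matrix on the finite set `Ω`, reversible with respect to the
(everywhere positive) probability vector `π`. -/
structure IsReversibleChain (P : Matrix Ω Ω ℝ) (π : Ω → ℝ) : Prop where
  nonneg : ∀ x y, 0 ≤ P x y
  row_sum : ∀ x, ∑ y, P x y = 1
  irreducible : ∀ x y, ∃ k : ℕ, 0 < (P ^ k) x y
  pi_pos : ∀ x, 0 < π x
  pi_sum : ∑ x, π x = 1
  detailed_balance : ∀ x y, π x * P x y = π y * P y x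

/-- The Dirichlet form `E(f, g) = ⟨(I - P) f, g⟩_π`. -/
noncomputable def dirichlet (P : Matrix Ω Ω ℝ) (π f g : Ω → ℝ) : ℝ :=
  ∑ x, π x * (f x - ∑ y, P x y * f y) * g x

/-- `Ent_π(f) = E_π[f log f] - E_π[f] log E_π[f]`. -/
noncomputable def ent (π f : Ω → ℝ) : ℝ :=
  ∑ x, π x * (f x * Real.log (f x)) - (∑ x, π x * f x) * Real.log (∑ x, π x * f x)

/-- The modified log-Sobolev constant, the infimum of `E(e^f, f) / Ent_π(e^f)` over all
non-constant `f`. -/
noncomputable def cMLS (P : Matrix Ω Ω ℝ) (π : Ω → ℝ) : ℝ≥0∞ :=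
  ⨅ (f : Ω → ℝ) (_ : ¬ ∃ c : ℝ, ∀ x, f x = c),
    ENNReal.ofReal (dirichlet P π (fun x => Real.exp (f x)) f / ent π (fun x => Real.exp (f x)))

/-- The heat kernel `H_t = exp (-t (I - P))`. -/
noncomputable def heat (P : Matrix Ω Ω ℝ) (t : ℝ) : Matrix Ω Ω ℝ :=
  NormedSpace.exp (-(t • (1 - P)))

/-- Relative entropy `D(μ ‖ π)`. -/
noncomputable def relEnt (μ π : Ω → ℝ) : ℝ := ∑ y, μ y * Real.log (μ y / π y)

/-- The entropy mixing time `τ_ent = max_x inf {t ≥ 0 : D(H_t(x,·) ‖ π) ≤ 1/2}`. -/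
noncomputable def tauEnt (P : Matrix Ω Ω ℝ) (π : Ω → ℝ) : ℝ≥0∞ :=
  ⨆ x : Ω, ⨅ (t : ℝ≥0) (_ : relEnt (fun y => heat P t x y) π ≤ 1 / 2), (t : ℝ≥0∞)

/-- `Pr_x[T_{Aᶜ} > t]`, the probability that the chain started at `x` stays in `A` up to time `t`:
for `x ∈ A` it is the row sum at `x` of `exp (-t (I - P)_A)`, the semigroup killed on leaving `A`,
where `(I - P)_A` is the `A × A` block of `I - P`; it is `0` for `x ∉ A`. -/
noncomputable def stay (P : Matrix Ω Ω ℝ) (A : Finset Ω) (t : ℝ) (x : Ω) : ℝ :=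
  if h : x ∈ A then
    ∑ y : A, (NormedSpace.exp (-(t • ((1 - P).submatrix (fun a : A => (a : Ω))
      (fun a : A => (a : Ω))))) : Matrix A A ℝ) ⟨x, h⟩ y
  else 0

/-- `A` is connected: from every `a ∈ A` every `b ∈ A` is reached with positive probability before
leaving `A`. -/
def Conn (P : Matrix Ω Ω ℝ) (A : Finset Ω) : Prop :=
  ∀ a b : A, ∃ k : ℕ, 0 < ((P.submatrix (fun a : A => (a : Ω)) (fun a : A => (a : Ω))) ^ k) a b

/-- The family `Con_{1/2}` of (nonempty) connected sets of `π`-measure at most `1/2`. -/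
def Con (P : Matrix Ω Ω ℝ) (π : Ω → ℝ) : Set (Finset Ω) :=
  {A | A.Nonempty ∧ Conn P A ∧ ∑ a ∈ A, π a ≤ 1 / 2}

/-- The entropy hitting-time parameter `ρ_ent = max_x ρ_{ent,x}` with constant `Cent`, where
`ρ_{ent,x}` is the least `t ≥ 0` with
`Pr_x[T_{Aᶜ} > t] ≤ min (Cent / |log π(A)|) (99/100)` for all `A` in `Con_{1/2}`. -/
noncomputable def rhoEnt (Cent : ℝ) (P : Matrix Ω Ω ℝ) (π : Ω → ℝ) : ℝ≥0∞ :=
  ⨆ x : Ω, ⨅ (t : ℝ≥0) (_ : ∀ A ∈ Con P π,
    stay P A t x ≤ min (Cent / |Real.log (∑ a ∈ A, π a)|) (99 / 100)), (t : ℝ≥0∞)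

end Defs

section General

variable {ι : Type} [Fintype ι] [DecidableEq ι]

open scoped Matrix.Norms.Operator in
lemma exp_entry_hasSum (M : Matrix ι ι ℝ) (t : ℝ) (x y : ι) :
    HasSum (fun n : ℕ => ((n.factorial : ℝ)⁻¹ * t ^ n) * (M ^ n) x y)
      ((NormedSpace.exp (t • M)) x y) := by
  have h := NormedSpace.exp_series_hasSum_exp' (𝕂 := ℝ) (t • M)
  have h2 := Pi.hasSum.1 (Pi.hasSum.1 h x) y
  have h3 : (fun n : ℕ => ((n.factorial : ℝ)⁻¹ * t ^ n) * (M ^ n) x y) =
      (fun n : ℕ => ((n.factorial : ℝ)⁻¹ • (t • M) ^ n) x y) := by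
    funext n
    rw [smul_pow, Matrix.smul_apply, Matrix.smul_apply, smul_eq_mul, smul_eq_mul]
    ring
  rw [h3]
  exact h2

lemma exp_mulVec_hasSum (M : Matrix ι ι ℝ) (t : ℝ) (V : ι → ℝ) (x : ι) :
    HasSum (fun n : ℕ => ((n.factorial : ℝ)⁻¹ * t ^ n) * ((M ^ n) *ᵥ V) x)
      (((NormedSpace.exp (t • M)) *ᵥ V) x) := by
  have h : ∀ y : ι, HasSum (fun n : ℕ => ((n.factorial : ℝ)⁻¹ * t ^ n) * (M ^ n) x y * V y)
      ((NormedSpace.exp (t • M)) x y * V y) := fun y => (exp_entry_hasSum M t x y).mul_right (V y)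
  have h2 := hasSum_sum (s := Finset.univ) (fun y _ => h y)
  have h3 : (fun n : ℕ => ((n.factorial : ℝ)⁻¹ * t ^ n) * ((M ^ n) *ᵥ V) x) =
      (fun n : ℕ => ∑ y, ((n.factorial : ℝ)⁻¹ * t ^ n) * (M ^ n) x y * V y) := by
    funext n
    rw [Matrix.mulVec, dotProduct, Finset.mul_sum]
    exact Finset.sum_congr rfl fun y _ => by ring
  rw [h3]
  exact h2

lemma pow_nonneg_entry {M : Matrix ι ι ℝ} (hM : ∀ x y, 0 ≤ M x y) (n : ℕ) :
    ∀ x y, 0 ≤ (M ^ n) x y := by
  induction n with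
  | zero => intro x y; rw [pow_zero, Matrix.one_apply]; split_ifs <;> norm_num
  | succ n ih =>
    intro x y
    rw [pow_succ, Matrix.mul_apply]
    exact Finset.sum_nonneg fun z _ => mul_nonneg (ih x z) (hM z y)

omit [DecidableEq ι] in
lemma mulVec_mono {M : Matrix ι ι ℝ} (hM : ∀ x y, 0 ≤ M x y) {V W : ι → ℝ}
    (h : ∀ x, V x ≤ W x) (x : ι) : (M *ᵥ V) x ≤ (M *ᵥ W) x := by
  rw [Matrix.mulVec, Matrix.mulVec, dotProduct, dotProduct]
  exact Finset.sum_le_sum fun y _ => mul_le_mul_of_nonneg_left (h y) (hM x y)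

lemma pow_mulVec_le {M : Matrix ι ι ℝ} (hM : ∀ x y, 0 ≤ M x y) {V : ι → ℝ} {θ : ℝ} (hθ : 0 ≤ θ)
    (h : ∀ x, (M *ᵥ V) x ≤ θ * V x) (n : ℕ) : ∀ x, ((M ^ n) *ᵥ V) x ≤ θ ^ n * V x := by
  induction n with
  | zero => intro x; simp
  | succ n ih =>
    intro x
    rw [pow_succ, ← Matrix.mulVec_mulVec]
    calc ((M ^ n) *ᵥ (M *ᵥ V)) x ≤ ((M ^ n) *ᵥ (θ • V)) x :=
          mulVec_mono (pow_nonneg_entry hM n) (fun y => by simpa using h y) x
      _ = θ * ((M ^ n) *ᵥ V) x := by rw [Matrix.mulVec_smul]; simp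
      _ ≤ θ * (θ ^ n * V x) := mul_le_mul_of_nonneg_left (ih x) hθ
      _ = θ ^ (n + 1) * V x := by ring

lemma exp_mulVec_le {M : Matrix ι ι ℝ} (hM : ∀ x y, 0 ≤ M x y) {V : ι → ℝ} {θ : ℝ} (hθ : 0 ≤ θ)
    (h : ∀ x, (M *ᵥ V) x ≤ θ * V x) {t : ℝ} (ht : 0 ≤ t) (x : ι) :
    ((NormedSpace.exp (t • M)) *ᵥ V) x ≤ Real.exp (θ * t) * V x := by
  have h1 := exp_mulVec_hasSum M t V x
  have h2 : HasSum (fun n : ℕ => ((n.factorial : ℝ)⁻¹ * t ^ n) * (θ ^ n * V x))
      (Real.exp (θ * t) * V x) := by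
    have h3 : HasSum (fun n : ℕ => (θ * t) ^ n / (n.factorial : ℝ)) (Real.exp (θ * t)) := by
      rw [Real.exp_eq_exp_ℝ]
      exact NormedSpace.expSeries_div_hasSum_exp (θ * t)
    have h4 := h3.mul_right (V x)
    have h5 : (fun n : ℕ => ((n.factorial : ℝ)⁻¹ * t ^ n) * (θ ^ n * V x)) =
        (fun n : ℕ => (θ * t) ^ n / (n.factorial : ℝ) * V x) := by
      funext n
      rw [mul_pow]; ring
    rw [h5]
    exact h4
  refine hasSum_le (fun n => ?_) h1 h2
  exact mul_le_mul_of_nonneg_left (pow_mulVec_le hM hθ h n x) (by positivity)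

lemma exp_nonneg_entry {M : Matrix ι ι ℝ} (hM : ∀ x y, 0 ≤ M x y) {t : ℝ} (ht : 0 ≤ t) (x y : ι) :
    0 ≤ (NormedSpace.exp (t • M)) x y :=
  (exp_entry_hasSum M t x y).nonneg fun n => mul_nonneg (by positivity)
    (pow_nonneg_entry hM n x y)

lemma exp_killed (M : Matrix ι ι ℝ) (t : ℝ) :
    NormedSpace.exp (-(t • (1 - M))) = Real.exp (-t) • NormedSpace.exp (t • M) := by
  have h1 : -(t • (1 - M)) = (-t) • (1 : Matrix ι ι ℝ) + t • M := by
    rw [smul_sub, neg_sub, neg_smul]; abel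
  rw [h1, Matrix.exp_add_of_commute _ _ ((Commute.one_left _).smul_left _)]
  have h2 : NormedSpace.exp ((-t) • (1 : Matrix ι ι ℝ)) = Real.exp (-t) • (1 : Matrix ι ι ℝ) := by
    have h3 : (-t) • (1 : Matrix ι ι ℝ) = Matrix.diagonal (fun _ => -t) := by
      rw [← Matrix.diagonal_one, ← Matrix.diagonal_smul]; simp
    rw [h3, Matrix.exp_diagonal]
    rw [← Matrix.diagonal_one, ← Matrix.diagonal_smul]
    congr 1
    funext i
    rw [Real.exp_eq_exp_ℝ]
    simp [Pi.coe_exp]
  rw [h2, smul_mul_assoc, one_mul]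

lemma killed_mulVec_le {M : Matrix ι ι ℝ} (hM : ∀ x y, 0 ≤ M x y) {V : ι → ℝ} {θ : ℝ} (hθ : 0 ≤ θ)
    (h : ∀ x, (M *ᵥ V) x ≤ θ * V x) {t : ℝ} (ht : 0 ≤ t) (x : ι) :
    ((NormedSpace.exp (-(t • (1 - M)))) *ᵥ V) x ≤ Real.exp (-(1 - θ) * t) * V x := by
  rw [exp_killed, Matrix.smul_mulVec, Pi.smul_apply, smul_eq_mul]
  calc Real.exp (-t) * ((NormedSpace.exp (t • M)) *ᵥ V) x
      ≤ Real.exp (-t) * (Real.exp (θ * t) * V x) :=
        mul_le_mul_of_nonneg_left (exp_mulVec_le hM hθ h ht x) (Real.exp_nonneg _)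
    _ = Real.exp (-(1 - θ) * t) * V x := by
        rw [← mul_assoc, ← Real.exp_add]; congr 2; ring

end General

section Chain

/-- The three-state birth and death chain with `π ∝ (1, 2, N)`. -/
noncomputable def PP (N : ℝ) : Matrix (Fin 3) (Fin 3) ℝ :=
  !![1 / 2, 1 / 2, 0; 1 / 4, 1 / 4, 1 / 2; 0, 1 / N, 1 - 1 / N]

/-- Its stationary distribution. -/
noncomputable def pp (N : ℝ) : Fin 3 → ℝ := ![1 / (N + 3), 2 / (N + 3), N / (N + 3)]

/-- The weight function `(2, 1, 0)`. -/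
def vv : Fin 3 → ℝ := ![2, 1, 0]

lemma PP_nonneg {N : ℝ} (hN : 1 ≤ N) : ∀ x y, 0 ≤ PP N x y := by
  have h : 0 ≤ 1 - 1 / N := by rw [sub_nonneg, div_le_one (by linarith)]; exact hN
  have h2 : 0 ≤ 1 / N := by positivity
  intro x y
  fin_cases x <;> fin_cases y <;> simp [PP] <;> first | linarith | simpa using h

lemma isChain {N : ℝ} (hN : 2 ≤ N) : IsReversibleChain (PP N) (pp N) where
  nonneg := PP_nonneg (by linarith)
  row_sum := by
    intro x
    fin_cases x <;> simp [PP, Fin.sum_univ_three] <;> norm_num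
  irreducible := by
    have hNi : 0 < 1 / N := by positivity
    have h1 : 1 / N < 1 := by rw [div_lt_one (by linarith)]; linarith
    intro x y
    fin_cases x <;> fin_cases y
    · exact ⟨0, by simp⟩
    · exact ⟨1, by simp [PP]⟩
    · exact ⟨2, by simp [PP, pow_two, Matrix.mul_apply, Fin.sum_univ_three]⟩
    · exact ⟨1, by simp [PP]⟩
    · exact ⟨0, by simp⟩
    · exact ⟨1, by simp [PP]⟩
    · exact ⟨2, by simp [PP, pow_two, Matrix.mul_apply, Fin.sum_univ_three]; positivity⟩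
    · exact ⟨1, by simp [PP]; positivity⟩
    · exact ⟨0, by simp⟩
  pi_pos := by
    intro x
    fin_cases x <;> simp [pp] <;> positivity
  pi_sum := by
    simp [pp, Fin.sum_univ_three]
    field_simp
    ring
  detailed_balance := by
    intro x y
    have : N ≠ 0 := by linarith
    have : N + 3 ≠ 0 := by linarith
    fin_cases x <;> fin_cases y <;> simp [PP, pp] <;> field_simp <;> norm_num

lemma PP_vv {N : ℝ} (x : Fin 3) (hx : x ≠ 2) : ∑ y, PP N x y * vv y = 3 / 4 * vv x := by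
  fin_cases x
  · simp [PP, vv, Fin.sum_univ_three]; norm_num
  · simp [PP, vv, Fin.sum_univ_three]; norm_num
  · exact absurd rfl hx

lemma two_notMem {N : ℝ} (hN : 4 ≤ N) {A : Finset (Fin 3)} (hA : ∑ a ∈ A, pp N a ≤ 1 / 2) :
    (2 : Fin 3) ∉ A := by
  intro h
  have h1 : pp N 2 ≤ ∑ a ∈ A, pp N a :=
    Finset.single_le_sum (fun a _ => ((isChain (by linarith : 2 ≤ N)).pi_pos a).le) h
  have h2 : pp N 2 = N / (N + 3) := by simp [pp]
  have h3 : (1 : ℝ) / 2 < N / (N + 3) := by rw [div_lt_div_iff₀ (by norm_num) (by linarith)]; linarith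
  linarith

lemma stay_le {N : ℝ} (hN : 4 ≤ N) {A : Finset (Fin 3)} (hA : ∑ a ∈ A, pp N a ≤ 1 / 2)
    {t : ℝ} (ht : 0 ≤ t) (x : Fin 3) : stay (PP N) A t x ≤ 2 * Real.exp (-(t / 4)) := by
  have h2 := two_notMem hN hA
  unfold stay
  split_ifs with h
  · set M : Matrix A A ℝ := (PP N).submatrix (fun a : A => (a : Fin 3)) (fun a : A => (a : Fin 3))
      with hM
    have hMnn : ∀ a b, 0 ≤ M a b := fun a b => PP_nonneg (by linarith) _ _
    have e1 : (1 - PP N).submatrix (fun a : A => (a : Fin 3)) (fun a : A => (a : Fin 3)) = 1 - M := by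
      ext a b
      simp only [Matrix.submatrix_apply, Matrix.sub_apply, hM, Matrix.one_apply]
      congr 1
      by_cases hab : a = b
      · simp [hab]
      · have : (a : Fin 3) ≠ b := fun hh => hab (Subtype.ext hh)
        simp [hab, this]
    rw [e1]
    set V : A → ℝ := fun a => vv a with hV
    have hne : ∀ a : A, (a : Fin 3) ≠ 2 := fun a ha => h2 (ha ▸ a.2)
    have hV1 : ∀ a : A, 1 ≤ V a := by
      intro a
      have := hne a
      simp only [hV]
      generalize (a : Fin 3) = b at this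
      fin_cases b
      · simp [vv]
      · simp [vv]
      · exact absurd rfl this
    have hV2 : ∀ a : A, V a ≤ 2 := by
      intro a
      simp only [hV]
      generalize (a : Fin 3) = b
      fin_cases b <;> simp [vv]
    have hvvnn : ∀ b : Fin 3, 0 ≤ vv b := by
      intro b; fin_cases b <;> simp [vv]
    have hMV : ∀ a, (M *ᵥ V) a ≤ 3 / 4 * V a := by
      intro a
      rw [Matrix.mulVec, dotProduct]
      calc ∑ b : A, M a b * V b = ∑ b ∈ A, PP N a b * vv b := by
            rw [← Finset.sum_coe_sort A (fun b => PP N a b * vv b)]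
            rfl
        _ ≤ ∑ b, PP N a b * vv b := Finset.sum_le_sum_of_subset_of_nonneg (Finset.subset_univ _)
            fun b _ _ => mul_nonneg (PP_nonneg (by linarith) _ _) (hvvnn b)
        _ = 3 / 4 * V a := PP_vv _ (hne a)
    have h3 := killed_mulVec_le hMnn (by norm_num : (0:ℝ) ≤ 3 / 4) hMV ht ⟨x, h⟩
    have hEnn : ∀ y, 0 ≤ (NormedSpace.exp (-(t • (1 - M)))) ⟨x, h⟩ y := by
      intro y
      rw [exp_killed, Matrix.smul_apply, smul_eq_mul]
      exact mul_nonneg (Real.exp_nonneg _) (exp_nonneg_entry hMnn ht _ _)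
    calc ∑ y, (NormedSpace.exp (-(t • (1 - M)))) ⟨x, h⟩ y
        ≤ ((NormedSpace.exp (-(t • (1 - M)))) *ᵥ V) ⟨x, h⟩ := by
          rw [Matrix.mulVec, dotProduct]
          exact Finset.sum_le_sum fun y _ => le_mul_of_one_le_right (hEnn y) (hV1 y)
      _ ≤ Real.exp (-(1 - 3 / 4) * t) * V ⟨x, h⟩ := h3
      _ ≤ Real.exp (-(1 - 3 / 4) * t) * 2 :=
          mul_le_mul_of_nonneg_left (hV2 _) (Real.exp_nonneg _)
      _ = 2 * Real.exp (-(t / 4)) := by rw [mul_comm]; congr 2; ring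
  · positivity

lemma log_pi_bounds {N : ℝ} (hN : 4 ≤ N) {A : Finset (Fin 3)} (hne : A.Nonempty)
    (hA : ∑ a ∈ A, pp N a ≤ 1 / 2) :
    0 < |Real.log (∑ a ∈ A, pp N a)| ∧ |Real.log (∑ a ∈ A, pp N a)| ≤ Real.log (N + 3) := by
  obtain ⟨a, ha⟩ := hne
  have hpos := (isChain (by linarith : 2 ≤ N)).pi_pos
  have h1 : pp N a ≤ ∑ a ∈ A, pp N a := Finset.single_le_sum (fun a _ => (hpos a).le) ha
  have h2 : 1 / (N + 3) ≤ pp N a := by
    fin_cases a
    · simp [pp]
    · simp only [pp, Fin.mk_one, Matrix.cons_val_one, Matrix.cons_val_zero]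
      gcongr; norm_num
    · simp only [pp, Fin.reduceFinMk, Matrix.cons_val]
      gcongr; linarith
  have h3 : 0 < 1 / (N + 3) := by positivity
  have h4 : Real.log (∑ a ∈ A, pp N a) < 0 :=
    Real.log_neg (by linarith) (by linarith)
  rw [abs_of_neg h4]
  refine ⟨by linarith, ?_⟩
  have h5 := Real.log_le_log h3 (h2.trans h1)
  rw [one_div, Real.log_inv] at h5
  linarith

/-- Upper bound for `ρ_ent`. -/
lemma rhoEnt_le {N : ℝ} (hN : 4 ≤ N) {Cent : ℝ} (hC : 0 < Cent) :
    rhoEnt Cent (PP N) (pp N) ≤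
      ENNReal.ofReal (4 * Real.log (2 * Real.log (N + 3) / Cent + 3)) := by
  have hlog : 0 < Real.log (N + 3) := Real.log_pos (by linarith)
  set s : ℝ := 2 * Real.log (N + 3) / Cent + 3 with hs
  have hs3 : 3 ≤ s := by rw [hs]; have : 0 ≤ 2 * Real.log (N + 3) / Cent := by positivity
                         linarith
  have hlogs : 0 ≤ Real.log s := Real.log_nonneg (by linarith)
  refine iSup_le fun x => ?_
  refine iInf_le_of_le (Real.toNNReal (4 * Real.log s)) ?_
  refine iInf_le_of_le ?_ (le_of_eq rfl)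
  rintro A ⟨hne, -, hA⟩
  rw [Real.coe_toNNReal _ (by positivity)]
  refine (stay_le hN hA (by positivity) x).trans ?_
  have e1 : Real.exp (-(4 * Real.log s / 4)) = 1 / s := by
    rw [show -(4 * Real.log s / 4) = -Real.log s by ring, Real.exp_neg, Real.exp_log (by linarith),
      one_div]
  rw [e1]
  obtain ⟨h1, h2⟩ := log_pi_bounds hN hne hA
  refine le_min ?_ ?_
  · rw [mul_one_div, div_le_div_iff₀ (by linarith) h1]
    have h3 : Cent * s = 2 * Real.log (N + 3) + 3 * Cent := by rw [hs]; field_simp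
    rw [h3]
    nlinarith
  · rw [mul_one_div, div_le_iff₀ (by linarith)]
    linarith

/-- `H_t V ≤ e^{-t/4} V + 4/N`. -/
lemma heat_vv_le {N : ℝ} (hN : 4 ≤ N) {t : ℝ} (ht : 0 ≤ t) (x : Fin 3) :
    ((heat (PP N) t) *ᵥ vv) x ≤ 2 * Real.exp (-(t / 4)) + 4 / N := by
  have hPnn := PP_nonneg (by linarith : 1 ≤ N)
  have hrow := (isChain (by linarith : 2 ≤ N)).row_sum
  have hN0 : N ≠ 0 := by linarith
  -- row sums of the heat kernel
  have hone : ∀ y, (PP N *ᵥ (fun _ => (1:ℝ))) y ≤ 1 * (fun _ : Fin 3 => (1:ℝ)) y := by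
    intro y; rw [Matrix.mulVec, dotProduct]; simp [hrow y]
  have h1 := killed_mulVec_le hPnn (by norm_num : (0:ℝ) ≤ 1) hone ht x
  -- the shifted function
  set W : Fin 3 → ℝ := fun y => vv y - 4 / N with hW
  have hPW : ∀ y, (PP N *ᵥ W) y ≤ 3 / 4 * W y := by
    intro y
    have hNi : 0 < 1 / N := by positivity
    have e : (PP N *ᵥ W) y = ∑ z, PP N y z * vv z - 4 / N := by
      rw [Matrix.mulVec, dotProduct]
      simp only [hW, mul_sub, Finset.sum_sub_distrib]
      rw [← Finset.sum_mul, hrow y, one_mul]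
    rw [e]
    fin_cases y
    · rw [PP_vv _ (by decide)]; simp only [hW]
      have : 4 / N = 4 * (1 / N) := by ring
      rw [this]; nlinarith
    · rw [PP_vv _ (by decide)]; simp only [hW]
      have : 4 / N = 4 * (1 / N) := by ring
      rw [this]; nlinarith
    · simp [PP, vv, hW, Fin.sum_univ_three]
      have : 4 / N = 4 * N⁻¹ := by ring
      rw [this]; nlinarith
  have h2 := killed_mulVec_le hPnn (by norm_num : (0:ℝ) ≤ 3 / 4) hPW ht x
  have e2 : (NormedSpace.exp (-(t • (1 - PP N))) *ᵥ vv) x =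
      (NormedSpace.exp (-(t • (1 - PP N))) *ᵥ W) x +
        4 / N * (NormedSpace.exp (-(t • (1 - PP N))) *ᵥ (fun _ => (1:ℝ))) x := by
    have : vv = W + (4 / N) • (fun _ => (1:ℝ)) := by
      funext y; simp [hW]
    conv_lhs => rw [this]
    rw [Matrix.mulVec_add, Matrix.mulVec_smul]
    simp
  unfold heat
  rw [e2]
  have h3 : Real.exp (-(1 - 3 / 4) * t) * W x ≤ Real.exp (-(t / 4)) * 2 := by
    rw [show -(1 - 3 / 4) * t = -(t / 4) by ring]
    refine mul_le_mul_of_nonneg_left ?_ (Real.exp_nonneg _)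
    have : 0 ≤ 4 / N := by positivity
    have h4 : vv x ≤ 2 := by fin_cases x <;> simp [vv]
    simp only [hW]; linarith
  have h5 : (NormedSpace.exp (-(t • (1 - PP N))) *ᵥ (fun _ => (1:ℝ))) x ≤ 1 := by
    simpa using h1
  have h6 : 4 / N * (NormedSpace.exp (-(t • (1 - PP N))) *ᵥ (fun _ => (1:ℝ))) x ≤ 4 / N * 1 :=
    mul_le_mul_of_nonneg_left h5 (by positivity)
  linarith

lemma heat_nonneg {N : ℝ} (hN : 4 ≤ N) {t : ℝ} (ht : 0 ≤ t) (x y : Fin 3) :
    0 ≤ heat (PP N) t x y := by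
  unfold heat
  rw [exp_killed, Matrix.smul_apply, smul_eq_mul]
  exact mul_nonneg (Real.exp_nonneg _) (exp_nonneg_entry (PP_nonneg (by linarith)) ht _ _)

lemma heat_row {N : ℝ} (hN : 4 ≤ N) {t : ℝ} (ht : 0 ≤ t) (x : Fin 3) :
    ∑ y, heat (PP N) t x y ≤ 1 := by
  have hrow := (isChain (by linarith : 2 ≤ N)).row_sum
  have hone : ∀ y, (PP N *ᵥ (fun _ => (1:ℝ))) y ≤ 1 * (fun _ : Fin 3 => (1:ℝ)) y := by
    intro y; rw [Matrix.mulVec, dotProduct]; simp [hrow y]
  have h1 := killed_mulVec_le (PP_nonneg (by linarith : 1 ≤ N)) (by norm_num : (0:ℝ) ≤ 1) hone ht x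
  rw [Matrix.mulVec, dotProduct] at h1
  simpa [heat] using h1

lemma mul_log_div_le {a p Z : ℝ} (ha : 0 ≤ a) (ha1 : a ≤ 1) (hp : 0 < p) (hZ : 1 / p ≤ Z) :
    a * Real.log (a / p) ≤ a * Real.log Z := by
  rcases eq_or_lt_of_le ha with rfl | ha
  · simp
  · refine mul_le_mul_of_nonneg_left ?_ ha.le
    refine Real.log_le_log (by positivity) (le_trans ?_ hZ)
    gcongr

/-- Upper bound for `τ_ent`. -/
lemma tauEnt_le {N : ℝ} (hN : 4 ≤ N) (hN2 : (4 * Real.log (N + 3) + 3) / N ≤ 1 / 4) :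
    tauEnt (PP N) (pp N) ≤ ENNReal.ofReal (4 * Real.log (8 * Real.log (N + 3))) := by
  have hlog : 1 < Real.log (N + 3) := by
    rw [Real.lt_log_iff_exp_lt (by linarith)]
    have := Real.exp_one_lt_d9
    linarith
  set s : ℝ := 8 * Real.log (N + 3) with hs
  have hs8 : 8 ≤ s := by rw [hs]; linarith
  have hlogs : 0 ≤ Real.log s := Real.log_nonneg (by linarith)
  refine iSup_le fun x => ?_
  refine iInf_le_of_le (Real.toNNReal (4 * Real.log s)) ?_
  refine iInf_le_of_le ?_ (le_of_eq rfl)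
  rw [Real.coe_toNNReal _ (by positivity)]
  set t : ℝ := 4 * Real.log s with ht
  have ht0 : 0 ≤ t := by positivity
  have e1 : Real.exp (-(t / 4)) = 1 / s := by
    rw [ht, show -(4 * Real.log s / 4) = -Real.log s by ring, Real.exp_neg,
      Real.exp_log (by linarith), one_div]
  have hv := heat_vv_le hN ht0 x
  rw [e1] at hv
  set h0 := heat (PP N) t x 0 with hh0
  set h1 := heat (PP N) t x 1 with hh1
  set h2 := heat (PP N) t x 2 with hh2
  have n0 : 0 ≤ h0 := heat_nonneg hN ht0 x 0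
  have n1 : 0 ≤ h1 := heat_nonneg hN ht0 x 1
  have n2 : 0 ≤ h2 := heat_nonneg hN ht0 x 2
  have hrow := heat_row hN ht0 x
  rw [Fin.sum_univ_three] at hrow
  have hvv : ((heat (PP N) t) *ᵥ vv) x = h0 * 2 + h1 * 1 := by
    rw [Matrix.mulVec, dotProduct, Fin.sum_univ_three]; simp [vv, hh0, hh1]
  rw [hvv] at hv
  unfold relEnt
  rw [Fin.sum_univ_three]
  have hN0 : (0:ℝ) < N := by linarith
  have hN3 : (0:ℝ) < N + 3 := by linarith
  have a0 : h0 * Real.log (h0 / pp N 0) ≤ h0 * Real.log (N + 3) :=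
    mul_log_div_le n0 (by linarith) ((isChain (by linarith : 2 ≤ N)).pi_pos 0) (by simp [pp])
  have a1 : h1 * Real.log (h1 / pp N 1) ≤ h1 * Real.log (N + 3) :=
    mul_log_div_le n1 (by linarith) ((isChain (by linarith : 2 ≤ N)).pi_pos 1) (by
      simp [pp]; linarith)
  have a2 : h2 * Real.log (h2 / pp N 2) ≤ h2 * Real.log ((N + 3) / N) :=
    mul_log_div_le n2 (by linarith) ((isChain (by linarith : 2 ≤ N)).pi_pos 2) (by
      simp [pp])
  have a3 : Real.log ((N + 3) / N) ≤ 3 / N := by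
    have := Real.log_le_sub_one_of_pos (show 0 < (N + 3) / N by positivity)
    have e : (N + 3) / N - 1 = 3 / N := by field_simp; ring
    linarith
  have a4 : h2 * Real.log ((N + 3) / N) ≤ 1 * (3 / N) := by
    have h3N : 0 ≤ 3 / N := by positivity
    calc h2 * Real.log ((N + 3) / N) ≤ h2 * (3 / N) := mul_le_mul_of_nonneg_left a3 n2
      _ ≤ 1 * (3 / N) := mul_le_mul_of_nonneg_right (by linarith) h3N
  have a5 : (h0 + h1) * Real.log (N + 3) ≤ (2 * (1 / s) + 4 / N) * Real.log (N + 3) :=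
    mul_le_mul_of_nonneg_right (by linarith) (by linarith)
  have a6 : (2 * (1 / s) + 4 / N) * Real.log (N + 3) = 1 / 4 + 4 * Real.log (N + 3) / N := by
    rw [hs]
    have : Real.log (N + 3) ≠ 0 := by linarith
    field_simp
    ring
  have a7 : (4 * Real.log (N + 3) + 3) / N = 4 * Real.log (N + 3) / N + 3 / N := by
    rw [add_div]
  nlinarith

end Chain

section Main

/-- Upper bound for the modified log-Sobolev constant, with `L = log N`. -/
lemma cMLS_le {L : ℝ} (hL : 12 < L) :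
    cMLS (PP (Real.exp L)) (pp (Real.exp L)) ≤
      ENNReal.ofReal ((Real.log L / 2 + 1) / (L / 2 - 6)) := by
  set N := Real.exp L with hN
  have hN4 : 4 ≤ N := by
    have := Real.add_one_le_exp L
    rw [hN]; linarith
  have hNpos : 0 < N := by linarith
  have hLpos : 0 < L := by linarith
  have hlogL : 0 < Real.log L := Real.log_pos (by linarith)
  have hlogL2 : Real.log L ≤ L := (Real.log_le_sub_one_of_pos hLpos).trans (by linarith)
  set f : Fin 3 → ℝ := ![L, L - Real.log L, 0] with hf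
  have hF0 : Real.exp (f 0) = N := by simp [hf, hN]
  have hF1 : Real.exp (f 1) = N / L := by
    simp only [hf, Matrix.cons_val_one, Matrix.cons_val_zero]
    rw [Real.exp_sub, Real.exp_log hLpos]
  have hF2 : Real.exp (f 2) = 1 := by simp [hf]
  have hf0 : f 0 = L := by simp [hf]
  have hf1 : f 1 = L - Real.log L := by simp [hf]
  have hf2 : f 2 = 0 := by simp [hf]
  have hconst : ¬ ∃ c : ℝ, ∀ x, f x = c := by
    rintro ⟨c, hc⟩
    have h0 := hc 0
    have h2 := hc 2
    rw [hf0] at h0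
    rw [hf2] at h2
    linarith
  refine iInf_le_of_le f (iInf_le_of_le hconst (ENNReal.ofReal_le_ofReal ?_))
  have hN3 : 0 < N + 3 := by linarith
  have hr1 : N / (N + 3) ≤ 1 := by rw [div_le_one hN3]; linarith
  have hr2 : 1 / 2 ≤ N / (N + 3) := by rw [div_le_div_iff₀ (by norm_num) hN3]; linarith
  -- Dirichlet form
  have hE : dirichlet (PP N) (pp N) (fun x => Real.exp (f x)) f =
      1 / (N + 3) * (1 / 2 * (N - N / L) * Real.log L + (N / L - 1) * (L - Real.log L)) := by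
    have hFF : (fun x => Real.exp (f x)) = ![N, N / L, 1] := by
      funext x
      fin_cases x
      · exact hF0
      · exact hF1
      · exact hF2
    rw [hFF]
    unfold dirichlet
    simp only [Fin.sum_univ_three, hf0, hf1, hf2]
    simp [PP, pp]
    field_simp
    ring
  have hEle : dirichlet (PP N) (pp N) (fun x => Real.exp (f x)) f ≤ Real.log L / 2 + 1 := by
    rw [hE]
    have hNL : 0 < N / L := by positivity
    have h1 : 1 / 2 * (N - N / L) * Real.log L ≤ 1 / 2 * N * Real.log L := by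
      refine mul_le_mul_of_nonneg_right ?_ hlogL.le
      linarith
    have h2 : (N / L - 1) * (L - Real.log L) ≤ N := by
      have e : (N / L) * L = N := by field_simp
      nlinarith
    calc 1 / (N + 3) * (1 / 2 * (N - N / L) * Real.log L + (N / L - 1) * (L - Real.log L))
        ≤ 1 / (N + 3) * (1 / 2 * N * Real.log L + N) :=
          mul_le_mul_of_nonneg_left (by linarith) (by positivity)
      _ = N / (N + 3) * (Real.log L / 2 + 1) := by ring
      _ ≤ 1 * (Real.log L / 2 + 1) := mul_le_mul_of_nonneg_right hr1 (by linarith)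
      _ = Real.log L / 2 + 1 := one_mul _
  -- entropy
  set m := ∑ x, pp N x * Real.exp (f x) with hm
  have hm1 : m = N / (N + 3) * (2 + 2 / L) := by
    rw [hm, Fin.sum_univ_three, hF0, hF1, hF2]
    simp [pp]
    ring
  have hm0 : 0 < m := by rw [hm1]; positivity
  have hm3 : m ≤ 3 := by
    rw [hm1]
    have : 2 / L ≤ 1 := by rw [div_le_one hLpos]; linarith
    have : 0 < 2 / L := by positivity
    nlinarith
  have hmlog : m * Real.log m ≤ 6 := by
    have h1 : m * Real.log m ≤ m * (m - 1) :=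
      mul_le_mul_of_nonneg_left (Real.log_le_sub_one_of_pos hm0) hm0.le
    nlinarith
  have hTge : L / 2 - 6 ≤ ent (pp N) (fun x => Real.exp (f x)) := by
    unfold ent
    simp only [Real.log_exp]
    rw [← hm]
    have e : ∑ x, pp N x * (Real.exp (f x) * f x) =
        N / (N + 3) * L + 2 * N / (L * (N + 3)) * (L - Real.log L) := by
      rw [Fin.sum_univ_three, hF0, hF1, hF2, hf0, hf1, hf2]
      simp [pp]
      field_simp
    rw [e]
    have h1 : 0 ≤ 2 * N / (L * (N + 3)) * (L - Real.log L) := by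
      have : 0 ≤ L - Real.log L := by linarith
      positivity
    have h2 : L / 2 ≤ N / (N + 3) * L := by nlinarith
    linarith
  have hT0 : 0 < L / 2 - 6 := by linarith
  calc dirichlet (PP N) (pp N) (fun x => Real.exp (f x)) f / ent (pp N) (fun x => Real.exp (f x))
      ≤ (Real.log L / 2 + 1) / ent (pp N) (fun x => Real.exp (f x)) :=
        div_le_div_of_nonneg_right hEle (by linarith)
    _ ≤ (Real.log L / 2 + 1) / (L / 2 - 6) :=
        div_le_div_of_nonneg_left (by linarith) hT0 hTge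

lemma final_ineq {C B r : ℝ} (hC : 0 < C) (hr : 0 < r) (h : C * B * r < 1) {ρ c : ℝ≥0∞}
    (hρ : ρ ≤ ENNReal.ofReal B) (hc : c ≤ ENNReal.ofReal r) : ENNReal.ofReal C * ρ < c⁻¹ := by
  calc ENNReal.ofReal C * ρ ≤ ENNReal.ofReal C * ENNReal.ofReal B := by gcongr
    _ = ENNReal.ofReal (C * B) := (ENNReal.ofReal_mul hC.le).symm
    _ < ENNReal.ofReal (1 / r) := by
        rw [ENNReal.ofReal_lt_ofReal_iff (by positivity), lt_div_iff₀ hr]
        exact h
    _ = (ENNReal.ofReal r)⁻¹ := by rw [one_div, ENNReal.ofReal_inv_of_pos hr]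
    _ ≤ c⁻¹ := ENNReal.inv_le_inv.2 hc

/-- **Disproof of Q1.** For every value `Cent > 0` of the constant in the definition of `ρ_ent` and
every `C > 0` there is an irreducible reversible chain on three states with
`1 / c_MLS > C ρ_ent` and `1 / c_MLS > C τ_ent`. -/
theorem result (Cent : ℝ) (hCent : 0 < Cent) (C : ℝ) (hC : 0 < C) :
    ∃ (P : Matrix (Fin 3) (Fin 3) ℝ) (π : Fin 3 → ℝ), IsReversibleChain P π ∧
      ENNReal.ofReal C * rhoEnt Cent P π < (cMLS P π)⁻¹ ∧
      ENNReal.ofReal C * tauEnt P π < (cMLS P π)⁻¹ := by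
  set K : ℝ := max (2 / Cent) 8 with hK
  have hK8 : 8 ≤ K := le_max_right _ _
  have hKC : 2 / Cent ≤ K := le_max_left _ _
  -- choose L
  have ho : ∀ᶠ L : ℝ in Filter.atTop, Real.log L ^ 2 ≤ 1 / (64 * (C + 1)) * L := by
    have h := (Real.isLittleO_pow_log_id_atTop (n := 2)).bound
      (show (0:ℝ) < 1 / (64 * (C + 1)) by positivity)
    filter_upwards [h, Filter.eventually_ge_atTop (1:ℝ)] with L h1 h2
    rw [Real.norm_of_nonneg (by positivity), id, Real.norm_of_nonneg (by linarith)] at h1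
    exact h1
  have hlog2 : ∀ᶠ L : ℝ in Filter.atTop, 2 ≤ Real.log L :=
    Real.tendsto_log_atTop.eventually_ge_atTop 2
  obtain ⟨L, ⟨hL1, hL2⟩, hL3⟩ := ((ho.and hlog2).and
    (Filter.eventually_ge_atTop (max 100 (2 * K + 3)))).exists
  have hL100 : 100 ≤ L := (le_max_left _ _).trans hL3
  have hLK : 2 * K + 3 ≤ L := (le_max_right _ _).trans hL3
  set N := Real.exp L with hN
  have hNL : L + 1 ≤ N := Real.add_one_le_exp L
  have hNL2 : 1 + L + L ^ 2 / 2 ≤ N := Real.quadratic_le_exp_of_nonneg (by linarith)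
  have hN4 : 4 ≤ N := by linarith
  have hlogN3 : Real.log (N + 3) ≤ L + 1 := by
    rw [Real.log_le_iff_le_exp (by linarith), Real.exp_add, ← hN]
    have := Real.exp_one_gt_d9
    nlinarith
  have hlogN30 : 0 ≤ Real.log (N + 3) := Real.log_nonneg (by linarith)
  have hKpos : 0 < K := by linarith
  have hbig : K * Real.log (N + 3) + 3 ≤ L ^ 2 := by nlinarith
  have hB : 4 * Real.log (K * Real.log (N + 3) + 3) ≤ 8 * Real.log L := by
    have h1 : Real.log (K * Real.log (N + 3) + 3) ≤ Real.log (L ^ 2) :=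
      Real.log_le_log (by positivity) hbig
    rw [Real.log_pow] at h1
    push_cast at h1
    linarith
  have hrho : rhoEnt Cent (PP N) (pp N) ≤ ENNReal.ofReal (8 * Real.log L) := by
    refine (rhoEnt_le hN4 hCent).trans (ENNReal.ofReal_le_ofReal (le_trans ?_ hB))
    have h1 : 2 * Real.log (N + 3) / Cent ≤ K * Real.log (N + 3) := by
      calc 2 * Real.log (N + 3) / Cent = 2 / Cent * Real.log (N + 3) := by ring
        _ ≤ K * Real.log (N + 3) := mul_le_mul_of_nonneg_right hKC hlogN30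
    have h2 : 0 ≤ 2 * Real.log (N + 3) / Cent := by positivity
    have := Real.log_le_log (show 0 < 2 * Real.log (N + 3) / Cent + 3 by linarith)
      (show 2 * Real.log (N + 3) / Cent + 3 ≤ K * Real.log (N + 3) + 3 by linarith)
    linarith
  have hlogpos : 0 < Real.log (N + 3) := Real.log_pos (by linarith)
  have htau : tauEnt (PP N) (pp N) ≤ ENNReal.ofReal (8 * Real.log L) := by
    refine (tauEnt_le hN4 ?_).trans (ENNReal.ofReal_le_ofReal (le_trans ?_ hB))
    · rw [div_le_iff₀ (by linarith)]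
      nlinarith
    · have := Real.log_le_log (show 0 < 8 * Real.log (N + 3) by positivity)
        (show 8 * Real.log (N + 3) ≤ K * Real.log (N + 3) + 3 by nlinarith)
      linarith
  have hc := cMLS_le (show 12 < L by linarith)
  have hr : 0 < (Real.log L / 2 + 1) / (L / 2 - 6) :=
    div_pos (by linarith) (by linarith)
  have hprod : C * (8 * Real.log L) * ((Real.log L / 2 + 1) / (L / 2 - 6)) < 1 := by
    rw [← mul_div_assoc, div_lt_one (by linarith)]
    have h1 : Real.log L / 2 + 1 ≤ Real.log L := by linarith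
    have h2 : C * (8 * Real.log L) * (Real.log L / 2 + 1) ≤ 8 * C * Real.log L ^ 2 := by
      have : 0 ≤ C * (8 * Real.log L) := by positivity
      nlinarith
    have h3 : 8 * C * Real.log L ^ 2 ≤ L / 8 := by
      have h4 : 8 * C * Real.log L ^ 2 ≤ 8 * C * (1 / (64 * (C + 1)) * L) :=
        mul_le_mul_of_nonneg_left hL1 (by positivity)
      have h5 : 8 * C * (1 / (64 * (C + 1)) * L) = L / 8 * (C / (C + 1)) := by
        field_simp; norm_num
      have h6 : C / (C + 1) ≤ 1 := by rw [div_le_one (by linarith)]; linarith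
      have h7 : L / 8 * (C / (C + 1)) ≤ L / 8 * 1 := mul_le_mul_of_nonneg_left h6 (by linarith)
      linarith
    linarith
  exact ⟨PP N, pp N, isChain (by linarith), final_ineq hC hr hprod hrho hc,
    final_ineq hC hr hprod htau hc⟩

end Main

end Pool.Agent.Results.MP_bada7b_pr.EntropyHittingFails
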